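import Pool.Agent.H4.EPB.Stm
import Pool.Agent.H87.EP.Z

/-!
# Part BB8: normal form of positive existential formulas
-/

set_option autoImplicit false

namespace Pool.Agent.H97.EP

open Pool.Agent.Helper687.Arith Pool.Agent.H51.EP Pool.Agent.H87.EP Pool.Agent.H4.EPB

section

variable {M : Type} [PAModel M]

theorem and_iff_eq (a b c d : M) : (a = b ∧ c = d) ↔
    a * a + b * b + (c * c + d * d) = a * b + a * b + (c * d + c * d) := by
  constructor
  · rintro ⟨rfl, rfl⟩; rfl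
  · intro h
    rw [← Zr.coe_inj] at h
    push_cast at h
    have h1 : ((a : Zr M) - b) ^ 2 + ((c : Zr M) - d) ^ 2 = 0 := by linear_combination h
    have h2 : ((a : Zr M) - b) ^ 2 = 0 := by
      have := sq_nonneg ((a : Zr M) - b)
      have := sq_nonneg ((c : Zr M) - d)
      linarith
    have h3 : ((c : Zr M) - d) ^ 2 = 0 := by
      have := sq_nonneg ((a : Zr M) - b)
      have := sq_nonneg ((c : Zr M) - d)
      linarith
    rw [pow_eq_zero_iff (two_ne_zero), sub_eq_zero, Zr.coe_inj] at h2 h3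
    exact ⟨h2, h3⟩

theorem or_iff_eq (a b c d : M) : (a = b ∨ c = d) ↔ a * c + b * d = a * d + b * c := by
  constructor
  · rintro (rfl | rfl)
    · exact add_comm _ _
    · rfl
  · intro h
    rw [← Zr.coe_inj] at h
    push_cast at h
    have h1 : ((a : Zr M) - b) * ((c : Zr M) - d) = 0 := by linear_combination h
    rcases mul_eq_zero.1 h1 with h | h
    · rw [sub_eq_zero, Zr.coe_inj] at h; exact Or.inl h
    · rw [sub_eq_zero, Zr.coe_inj] at h; exact Or.inr h

end

/-- renaming of the first formula -/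
def ren1 (m1 m2 : ℕ) (t : PT) : PT := t.sub (fun i => .var (if i < m1 then i else i + m2))
/-- renaming of the second formula -/
def ren2 (m1 : ℕ) (t : PT) : PT := t.sub (fun i => .var (i + m1))

theorem ev_ren1 {M : Type} [PAModel M] (m1 m2 : ℕ) (t : PT) (w v : ℕ → M) :
    (ren1 m1 m2 t).ev (apv (m1 + m2) w v) = t.ev (apv m1 w v) := by
  unfold ren1
  rw [PT.ev_sub]
  congr 1
  funext i
  simp only [PT.ev, apv]
  split_ifs with h1 h2 h3
  · rfl
  · omega
  · omega
  · congr 1; omega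

theorem ev_ren2 {M : Type} [PAModel M] (m1 m2 : ℕ) (t : PT) (w v : ℕ → M) :
    (ren2 m1 t).ev (apv (m1 + m2) w v) = t.ev (apv m2 (fun i => w (i + m1)) v) := by
  unfold ren2
  rw [PT.ev_sub]
  congr 1
  funext i
  simp only [PT.ev, apv]
  split_ifs with h1 h2 h3
  · rfl
  · omega
  · omega
  · congr 1; omega

theorem apv_congr {M : Type} (m : ℕ) (w w' v : ℕ → M) (h : ∀ i, i < m → w i = w' i) :
    apv m w v = apv m w' v := by
  funext i
  simp only [apv]
  split_ifs with h1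
  · exact h i h1
  · rfl

/-- a pair of sequences of witnesses -/
theorem exists_pair {M : Type} (m1 m2 : ℕ) (w1 w2 : ℕ → M) : ∃ w : ℕ → M,
    (∀ i, i < m1 → w i = w1 i) ∧ (∀ i, i < m2 → w (i + m1) = w2 i) :=
  ⟨fun i => if i < m1 then w1 i else w2 (i - m1), fun i hi => by simp [hi], fun i hi => by simp⟩

theorem BB8 : S_BB8 := by
  intro φ
  induction φ with
  | eq t s =>
    refine ⟨0, t, s, fun M _ v => ?_⟩
    have h : ∀ w : ℕ → M, apv 0 w v = v := fun w => by funext i; simp [apv]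
    simp only [h, EF.ev]
    exact ⟨fun h => ⟨v, h⟩, fun ⟨_, h⟩ => h⟩
  | and φ ψ ih1 ih2 =>
    obtain ⟨m1, t1, s1, h1⟩ := ih1
    obtain ⟨m2, t2, s2, h2⟩ := ih2
    refine ⟨m1 + m2, .add (.add (.mul (ren1 m1 m2 t1) (ren1 m1 m2 t1))
        (.mul (ren1 m1 m2 s1) (ren1 m1 m2 s1))) (.add (.mul (ren2 m1 t2) (ren2 m1 t2))
        (.mul (ren2 m1 s2) (ren2 m1 s2))),
      .add (.add (.mul (ren1 m1 m2 t1) (ren1 m1 m2 s1)) (.mul (ren1 m1 m2 t1) (ren1 m1 m2 s1)))
        (.add (.mul (ren2 m1 t2) (ren2 m1 s2)) (.mul (ren2 m1 t2) (ren2 m1 s2))),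
      fun M _ v => ?_⟩
    simp only [EF.ev, PT.ev, ev_ren1, ev_ren2, ← and_iff_eq]
    rw [h1, h2]
    constructor
    · rintro ⟨⟨w1, hw1⟩, ⟨w2, hw2⟩⟩
      obtain ⟨w, e1, e2⟩ := exists_pair m1 m2 w1 w2
      refine ⟨w, ?_, ?_⟩
      · rw [apv_congr m1 w w1 v e1]; exact hw1
      · rw [apv_congr m2 _ w2 v e2]; exact hw2
    · rintro ⟨w, e1, e2⟩
      exact ⟨⟨_, e1⟩, ⟨_, e2⟩⟩
  | or φ ψ ih1 ih2 =>
    obtain ⟨m1, t1, s1, h1⟩ := ih1
    obtain ⟨m2, t2, s2, h2⟩ := ih2
    refine ⟨m1 + m2, .add (.mul (ren1 m1 m2 t1) (ren2 m1 t2)) (.mul (ren1 m1 m2 s1) (ren2 m1 s2)),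
      .add (.mul (ren1 m1 m2 t1) (ren2 m1 s2)) (.mul (ren1 m1 m2 s1) (ren2 m1 t2)),
      fun M _ v => ?_⟩
    simp only [EF.ev, PT.ev, ev_ren1, ev_ren2, ← or_iff_eq]
    rw [h1, h2]
    constructor
    · rintro (⟨w1, hw1⟩ | ⟨w2, hw2⟩)
      · exact ⟨w1, Or.inl hw1⟩
      · obtain ⟨w, e1, e2⟩ := exists_pair m1 m2 w2 w2
        refine ⟨w, Or.inr ?_⟩
        rw [apv_congr m2 _ w2 v e2]; exact hw2
    · rintro ⟨w, e1 | e2⟩
      · exact Or.inl ⟨_, e1⟩
      · exact Or.inr ⟨_, e2⟩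
  | ex φ ih =>
    obtain ⟨m, t, s, h⟩ := ih
    refine ⟨m + 1, t, s, fun M _ v => ?_⟩
    have key : ∀ (w : ℕ → M) (a : M), w m = a → apv m w (cns a v) = apv (m + 1) w v := by
      intro w a ha
      funext i
      simp only [apv]
      split_ifs with h1 h2 h3
      · rfl
      · omega
      · have : i = m := by omega
        subst this
        simp [cns, ha]
      · obtain ⟨j, hj⟩ : ∃ j, i = j + m + 1 := ⟨i - m - 1, by omega⟩
        subst hj
        have e1 : j + m + 1 - m = j + 1 := by omega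
        have e2 : j + m + 1 - (m + 1) = j := by omega
        rw [e1, e2]
        rfl
    simp only [EF.ev, h]
    constructor
    · rintro ⟨a, w, hw⟩
      have e : apv m w (cns a v) = apv m (fun i => if i = m then a else w i) (cns a v) :=
        apv_congr m _ _ _ (fun i hi => by simp [hi.ne])
      refine ⟨fun i => if i = m then a else w i, ?_⟩
      rw [← key _ a (by simp), ← e]
      exact hw
    · rintro ⟨w, hw⟩
      refine ⟨w m, w, ?_⟩
      rw [key w _ rfl]
      exact hw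

end Pool.Agent.H97.EP
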