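import Pool.Agent.H87.EP.PStm

/-!
# Parts PELL11, PELL12: powers and the Pell equation
-/

set_option autoImplicit false

namespace Pool.Agent.H97.EP

open Pool.Agent.Helper687.Arith Pool.Agent.H51.EP Pool.Agent.H87.EP

theorem pell_lem {M : Type} [PAModel M] {n a p : M} (hn : 0 < n) (hnp : n ≤ p) (hpa : p < a) :
    (p : Zr M) < 2 * (a : Zr M) * n - (n : Zr M) ^ 2 - 1 := by
  have h1 : (1 : Zr M) ≤ (n : Zr M) := by
    have h := Zr.coe_lt.2 hn
    rw [Zr.coe_zero] at h
    have := Zr.lt_iff_add_one_le.1 h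
    linarith
  have h2 : (n : Zr M) ≤ (p : Zr M) := Zr.coe_le.2 hnp
  have h3 : (p : Zr M) + 1 ≤ (a : Zr M) := Zr.lt_iff_add_one_le.1 (Zr.coe_lt.2 hpa)
  nlinarith [mul_nonneg (sub_nonneg.2 h1) (show (0 : Zr M) ≤ 2 * (a : Zr M) - n by linarith)]

theorem two_coe (M : Type) [PAModel M] : (((2 : M) : M) : Zr M) = 2 := by
  have h : (2 : M) = 1 + 1 := one_add_one_eq_two.symm
  rw [h]
  push_cast
  exact one_add_one_eq_two

theorem PELL11 : S_PELL11 := by
  intro M _ hw hI hO hC n k hn hk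
  have nw : n ≤ n + k := le_self_add
  have kw : k ≤ n + k := le_add_self
  obtain ⟨w, hwd⟩ : ∃ w, w = n + k := ⟨_, rfl⟩
  rw [← hwd] at nw kw
  have w0 : 0 < w := hn.trans_le nw
  have w1 : 1 < w + 1 := by
    calc (1 : M) = 0 + 1 := (zero_add 1).symm
      _ < w + 1 := by gcongr
  have a1 : 1 < X (w + 1) w := by
    have := hO.X_lt w1 w0
    rwa [X_zero] at this
  have hdiv : (w : Zr M) ∣ ((Y (w + 1) w : M) : Zr M) := by
    have h := hC.sub_one w1 w
    push_cast at h
    have h2 : (w : Zr M) ∣ ((Y (w + 1) w : M) : Zr M) - w := by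
      convert h using 1; ring
    have h3 := dvd_add h2 (dvd_refl (w : Zr M))
    simpa using h3
  obtain ⟨z, hz⟩ := Zr.coe_dvd.1 hdiv
  obtain ⟨a, ha⟩ : ∃ a, a = X (w + 1) w := ⟨_, rfl⟩
  have hpa : pw n k < a := by
    calc pw n k ≤ pw n w := hw.le_right hn kw
      _ < pw (w + 1) w := hw.lt_left (lt_succ_iff.2 nw) w0
      _ ≤ X (w + 1) w := hO.pw_le w1 w
      _ = a := ha.symm
  have nt := pell_lem hn (hw.le_self hk) hpa
  have h0 : (0 : Zr M) ≤ 2 * (a : Zr M) * n - (n : Zr M) ^ 2 - 1 :=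
    (Zr.coe_nonneg _).trans nt.le
  obtain ⟨t, ht⟩ := Zr.nonneg_iff.1 h0
  rw [← ha] at a1
  refine ⟨w, a, t, z, a1, ?_, ?_, ?_, nw, kw, ?_⟩
  · rw [cg_iff, ← ht]
    have h := hC.pow a1 n k
    have h' := (dvd_neg (α := Zr M)).2 h
    push_cast
    convert h' using 1
    ring
  · rw [← Zr.coe_inj]
    push_cast
    rw [← ht, two_coe]
    ring
  · rw [← Zr.coe_lt, ← ht]
    exact nt
  · rw [← Zr.coe_inj]
    have h := hI.eq w1 w
    rw [← ha, hz] at h
    push_cast at h ⊢
    linear_combination h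

theorem PELL12 : S_PELL12 := by
  intro M _ hw hI hO hC h3 n k m hn hk
  rintro ⟨w, a, t, z, a1, hcg, hta, hmt, nw, kw, hz⟩
  have w0 : 0 < w := hn.trans_le nw
  have w1 : 1 < w + 1 := by
    calc (1 : M) = 0 + 1 := (zero_add 1).symm
      _ < w + 1 := by gcongr
  obtain ⟨j, haj, hyj⟩ := h3 w1 (x := a) (y := w * z) (by
    have h := congrArg (fun x : M => (x : Zr M)) hz
    push_cast at h ⊢
    linear_combination h)
  have hj0 : 0 < j := by
    rcases eq_or_ne j 0 with rfl | h
    · rw [X_zero] at haj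
      rw [haj] at a1
      exact absurd a1 (lt_irrefl _)
    · exact pos_of_ne h
  have wj : w ≤ j := by
    have h := hC.sub_one w1 j
    push_cast at h
    have h2 : (w : Zr M) ∣ ((Y (w + 1) j : M) : Zr M) - j := by
      convert h using 1; ring
    have h4 : (w : Zr M) ∣ ((Y (w + 1) j : M) : Zr M) := by
      rw [← hyj]; push_cast; exact dvd_mul_right _ _
    have h5 : (w : Zr M) ∣ (j : Zr M) := by
      have := dvd_sub h4 h2
      simpa using this
    have h6 := Zr.le_of_dvd (by rw [← Zr.coe_zero, Zr.coe_lt]; exact hj0) h5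
    exact Zr.coe_le.1 h6
  have hpa : pw n k < a := by
    calc pw n k ≤ pw n j := hw.le_right hn (kw.trans wj)
      _ < pw (w + 1) j := hw.lt_left (lt_succ_iff.2 nw) hj0
      _ ≤ X (w + 1) j := hO.pw_le w1 j
      _ = a := haj.symm
  have nt := pell_lem hn (hw.le_self hk) hpa
  have ht : (t : Zr M) = 2 * (a : Zr M) * n - (n : Zr M) ^ 2 - 1 := by
    have h := congrArg (fun x : M => (x : Zr M)) hta
    push_cast at h
    rw [two_coe] at h
    linear_combination -h
  rw [← ht] at nt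
  have h7 := cg_iff.1 hcg
  have h8 := hC.pow a1 n k
  rw [← ht] at h8
  have h9 : (t : Zr M) ∣ ((pw n k : M) : Zr M) - m := by
    have := dvd_add h7 h8
    convert this using 1
    push_cast
    ring
  have hmt' : (m : Zr M) < t := Zr.coe_lt.2 hmt
  rcases lt_trichotomy ((pw n k : M) : Zr M) (m : Zr M) with h | h | h
  · exfalso
    have h10 : (t : Zr M) ∣ (m : Zr M) - ((pw n k : M) : Zr M) := by
      have := (dvd_neg (α := Zr M)).2 h9
      convert this using 1; ring
    have := Zr.le_of_dvd (by linarith) h10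
    have h11 := Zr.coe_nonneg (pw n k)
    linarith
  · exact (Zr.coe_inj.1 h).symm
  · exfalso
    have := Zr.le_of_dvd (by linarith) h9
    have h11 := Zr.coe_nonneg m
    linarith

end Pool.Agent.H97.EP
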