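import Pool.Agent.H97.EP.BR

/-!
# Part UNI: the universal model
-/

set_option autoImplicit false

namespace Pool.Agent.H97.EP

open Pool.Agent.H51.EP
open Pool.Agent.H872R3.KH

theorem prv_ax {α : Fm 0} (h : Ax α) : HAProves α :=
  ⟨[α], by simpa using h, Prv.hyp (by simp)⟩

theorem ha_cons : ¬ HAProves .bot := fun h =>
  (model.sound_HA h forcesHA model.nonempty.some :)

theorem UNI (hBR : S_BR) : S_UNI := by
  obtain ⟨W, hW, hφ⟩ := universal {α | Ax α} (fun α h => h) ha_cons
  choose I hI using fun k : W.K => hBR _ (W.str k) (hW k)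
  refine ⟨⟨W, fun k φ h => (hφ φ).2 (prv_ax h) k, I, hI⟩, fun φ => hφ φ⟩

theorem UNI' : S_UNI := UNI BR

end Pool.Agent.H97.EP
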