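import Pool.Agent.H51.EP.Stm

/-!
# Part BR: structures which satisfy the axioms of Peano arithmetic are instances of `PAModel`
-/

set_option autoImplicit false

namespace Pool.Agent.H97.EP

open Pool.Agent.H51.EP
open Pool.Agent.Helper687.Arith
open FirstOrder FirstOrder.Language
open Pool.Agent.H872R3.KH (Tm Fm Str Ax ModelsPA Sat closure sat_subst sat_atZero sat_atSucc)

/-- the structure of Mathlib belonging to a structure of the library -/
@[reducible] def mst {M : Type} (A : Str M) : LA.Structure M where
  funMap := fun {n} (f : ArithFunc n) => match n, f with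
    | _, .zero => fun _ => A.zero
    | _, .succ => fun x => A.succ (x 0)
    | _, .add => fun x => A.add (x 0) (x 1)
    | _, .mul => fun x => A.mul (x 0) (x 1)
  RelMap := fun r => r.elim

section

variable {M : Type} (A : Str M)

theorem mst_rz : @rz M (mst A) = A.zero := rfl
theorem mst_rs (x : M) : @rs M (mst A) x = A.succ x := rfl
theorem mst_ra (x y : M) : @ra M (mst A) x y = A.add x y := rfl
theorem mst_rm (x y : M) : @rm M (mst A) x y = A.mul x y := rfl

/-- translation of terms -/
theorem tr_term {β : Type} (t : LA.Term β) (N : ℕ) (ρ : β → Fin N) :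
    ∃ t' : Tm N, ∀ v : Fin N → M, t'.ev A v = @Term.realize LA M (mst A) β (fun b => v (ρ b)) t := by
  induction t with
  | var b => exact ⟨.var (ρ b), fun v => rfl⟩
  | @func l f ts ih =>
    choose ts' hts' using ih
    cases (f : ArithFunc l) with
    | zero => exact ⟨.zero, fun v => rfl⟩
    | succ =>
      refine ⟨.succ (ts' 0), fun v => ?_⟩
      show A.succ _ = A.succ _
      rw [hts' 0 v]
    | add =>
      refine ⟨.add (ts' 0) (ts' 1), fun v => ?_⟩
      show A.add _ _ = A.add _ _
      rw [hts' 0 v, hts' 1 v]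
    | mul =>
      refine ⟨.mul (ts' 0) (ts' 1), fun v => ?_⟩
      show A.mul _ _ = A.mul _ _
      rw [hts' 0 v, hts' 1 v]

/-- translation of formulas -/
theorem tr_formula {α : Type} {m : ℕ} (φ : LA.BoundedFormula α m) : ∀ (N : ℕ)
    (ρ : α → Fin N) (τ : Fin m → Fin N), ∃ φ' : Fm N, ∀ v : Fin N → M,
      Sat A φ' v ↔ @BoundedFormula.Realize LA M (mst A) α m φ (fun a => v (ρ a))
        (fun i => v (τ i)) := by
  induction φ with
  | falsum => exact fun N ρ τ => ⟨.bot, fun v => Iff.rfl⟩
  | @equal m t s =>
    intro N ρ τ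
    obtain ⟨t', ht⟩ := tr_term A t N (Sum.elim ρ τ)
    obtain ⟨s', hs⟩ := tr_term A s N (Sum.elim ρ τ)
    refine ⟨.eq t' s', fun v => ?_⟩
    have e : (fun b => v (Sum.elim ρ τ b)) =
        Sum.elim (fun a => v (ρ a)) (fun i => v (τ i)) := by
      funext b
      rcases b with b | b <;> rfl
    show t'.ev A v = s'.ev A v ↔ _
    rw [ht, hs, e]
    rfl
  | rel r ts => exact (r : Empty).elim
  | imp φ ψ ih ih' =>
    intro N ρ τ
    obtain ⟨φ', h⟩ := ih N ρ τ
    obtain ⟨ψ', h'⟩ := ih' N ρ τ
    exact ⟨.imp φ' ψ', fun v => imp_congr (h v) (h' v)⟩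
  | @all m φ ih =>
    intro N ρ τ
    obtain ⟨φ', h⟩ := ih (N + 1) (fun a => (ρ a).succ) (Fin.snoc (fun i => (τ i).succ) 0)
    refine ⟨.all φ', fun v => forall_congr' fun a => ?_⟩
    rw [h]
    have e1 : (fun i => Pool.Agent.H872R3.KH.cns a v ((Fin.snoc (fun i => (τ i).succ) 0 :
        Fin (m + 1) → Fin (N + 1)) i)) = (Fin.snoc (fun i => v (τ i)) a : Fin (m + 1) → M) := by
      funext i
      refine Fin.lastCases ?_ (fun j => ?_) i
      · simp [Pool.Agent.H872R3.KH.cns]
      · simp [Pool.Agent.H872R3.KH.cns]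
    rw [e1]
    rfl

theorem sat_closure' {n : ℕ} (ψ : Fm n) (h : Sat A (closure n ψ) (fun i => i.elim0)) :
    ∀ u, Sat A ψ u := by
  induction n with
  | zero =>
    intro u
    have : u = (fun i => i.elim0) := funext fun i => i.elim0
    rw [this]
    exact h
  | succ n ih =>
    intro u
    have h1 := ih (.all ψ) h (fun i => u i.succ) (u 0)
    have : Pool.Agent.H872R3.KH.cns (u 0) (fun i => u i.succ) = u := by
      funext i
      refine Fin.cases rfl (fun j => rfl) i
    rwa [this] at h1

theorem mst_models (h : ModelsPA A) : @Theory.Model LA M (mst A) PA := by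
  let _i := mst A
  rw [Theory.model_iff]
  intro φ hφ
  cases hφ with
  | succ_ne =>
    simp only [Sentence.Realize, Formula.Realize, BoundedFormula.realize_all,
      BoundedFormula.realize_not, BoundedFormula.realize_bdEqual, real_Sc, real_O]
    exact fun x hx => h _ Ax.succ_ne x hx
  | succ_inj =>
    simp only [Sentence.Realize, Formula.Realize, BoundedFormula.realize_all,
      BoundedFormula.realize_imp, BoundedFormula.realize_bdEqual, real_Sc]
    exact fun x y hxy => h _ Ax.succ_inj x y hxy
  | add_zero =>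
    simp only [Sentence.Realize, Formula.Realize, BoundedFormula.realize_all,
      BoundedFormula.realize_bdEqual, real_Pl, real_O]
    exact fun x => h _ Ax.add_zero x
  | add_succ =>
    simp only [Sentence.Realize, Formula.Realize, BoundedFormula.realize_all,
      BoundedFormula.realize_bdEqual, real_Pl, real_Sc]
    exact fun x y => h _ Ax.add_succ x y
  | mul_zero =>
    simp only [Sentence.Realize, Formula.Realize, BoundedFormula.realize_all,
      BoundedFormula.realize_bdEqual, real_Ti, real_O]
    exact fun x => h _ Ax.mul_zero x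
  | mul_succ =>
    simp only [Sentence.Realize, Formula.Realize, BoundedFormula.realize_all,
      BoundedFormula.realize_bdEqual, real_Ti, real_Pl, real_Sc]
    exact fun x y => h _ Ax.mul_succ x y
  | @induction n φ =>
    rw [realize_inductionAxiom]
    intro y h0 hs x
    obtain ⟨φ', hφ'⟩ := tr_formula A φ (n + 1)
      (Sum.elim (fun i => i.succ) (fun _ => 0)) (fun i => i.elim0)
    have key : ∀ a : M, Sat A φ' (Pool.Agent.H872R3.KH.cns a y) ↔
        φ.Realize (Sum.elim y (fun _ => a)) := by
      intro a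
      rw [hφ']
      have e1 : (fun b => Pool.Agent.H872R3.KH.cns a y ((Sum.elim (fun i => i.succ)
          (fun _ => 0) : Fin n ⊕ Fin 1 → Fin (n + 1)) b)) = Sum.elim y (fun _ => a) := by
        funext b
        rcases b with b | b <;> rfl
      rw [e1]
      unfold Formula.Realize
      have e2 : (fun i => Pool.Agent.H872R3.KH.cns a y ((fun i => i.elim0 : Fin 0 → Fin (n + 1)) i))
          = (default : Fin 0 → M) := Subsingleton.elim _ _
      rw [e2]
    have hax := sat_closure' A _ (h _ (Ax.ind n φ')) y
    have h1 := hax ⟨(sat_atZero A φ' y).mpr ((key _).mpr h0), fun a ha =>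
      (sat_atSucc A φ' a y).mpr ((key _).mpr (hs a ((key a).mp ha)))⟩ x
    exact (key x).mp h1

end

/-- the instance of `PAModel` belonging to a model of `PA` -/
theorem exists_paModel (M : Type) [inst : LA.Structure M] [hPA : M ⊨ PA] :
    ∃ I : PAModel M, (I.toCommSemiring = rawSemiring M) := by
  let i1 : CommSemiring M := rawSemiring M
  let i2 : LinearOrder M := rawOrder M
  have hle : ∀ x y : M, x ≤ y ↔ ∃ z, x + z = y := fun x y => Iff.rfl
  have hcanc : ∀ {x y z : M}, x + z = y + z → x = y := fun {x y z} h => ra_cancel h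
  have hlt : ∀ x y : M, x < y ↔ ∃ z, x + (z + 1) = y := by
    intro x y
    rw [lt_iff_le_and_ne, hle]
    constructor
    · rintro ⟨⟨z, rfl⟩, hne⟩
      rcases cases_rs z with h | ⟨w, rfl⟩
      · exfalso
        apply hne
        rw [h]
        exact (ra_rz x).symm
      · exact ⟨w, by show ra x (ra w (rs rz)) = ra x (rs w); rw [ra_one]⟩
    · rintro ⟨z, rfl⟩
      refine ⟨⟨z + 1, rfl⟩, fun h => ?_⟩
      have h1 : (z + 1) + x = 0 + x := by rw [add_comm, ← h, zero_add]
      have h2 : z + 1 = 0 := hcanc h1
      have h3 : ra z (rs rz) = rz := h2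
      rw [ra_one] at h3
      exact rs_ne _ h3
  have i3 : IsOrderedCancelAddMonoid M := {
    add_le_add_left := by
      rintro x y ⟨z, rfl⟩ w
      exact ⟨z, by show x + w + z = x + z + w; ring⟩
    le_of_add_le_add_left := by
      rintro x y z ⟨w, h⟩
      refine ⟨w, ?_⟩
      have h1 : x + y + w = x + z := h
      have h2 : (y + w) + x = z + x := by rw [add_comm z x, ← h1]; ring
      exact hcanc h2 }
  have i4 : IsStrictOrderedRing M := {
    i3 with
    zero_le_one := ⟨1, by show (0 : M) + 1 = 1; rw [zero_add]⟩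
    exists_pair_ne := ⟨0, 1, fun h => rs_ne (rz : M) h.symm⟩
    mul_lt_mul_of_pos_left := by
      intro a ha b c hbc
      obtain ⟨z, rfl⟩ := (hlt _ _).mp hbc
      obtain ⟨a', rfl⟩ := (hlt _ _).mp ha
      show (0 + (a' + 1)) * b < (0 + (a' + 1)) * (b + (z + 1))
      rw [hlt]
      exact ⟨a' * z + a' + z, by ring⟩
    mul_lt_mul_of_pos_right := by
      intro a ha b c hbc
      obtain ⟨z, rfl⟩ := (hlt _ _).mp hbc
      obtain ⟨a', rfl⟩ := (hlt _ _).mp ha
      show b * (0 + (a' + 1)) < (b + (z + 1)) * (0 + (a' + 1))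
      rw [hlt]
      exact ⟨a' * z + a' + z, by ring⟩ }
  have i5 : CanonicallyOrderedAdd M := {
    exists_add_of_le := by
      rintro x y ⟨z, rfl⟩
      exact ⟨z, rfl⟩
    le_add_self := fun x y => ⟨y, add_comm _ _⟩
    le_self_add := fun x y => ⟨y, rfl⟩ }
  have hst : @standard M i1 = inst := standard_rawSemiring M
  let i6 : PAModel M := {
    i1, i2, i4, i5 with
    lt_add_one_iff' := by
      intro x y
      rw [hlt, hle]
      constructor
      · rintro ⟨z, h⟩
        exact ⟨z, hcanc (z := 1) (by rw [← h]; ring)⟩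
      · rintro ⟨z, rfl⟩
        exact ⟨z, by ring⟩
    ind' := by
      intro P hP h0 hs x
      have hP' : @Def M inst (fun v => P (v 0)) := by
        rw [← hst]
        exact hP
      refine raw_ind (P := P) hP' h0 (fun x hx => ?_) x
      have := hs x hx
      rwa [show x + 1 = rs x from ra_one x] at this }
  exact ⟨i6, rfl⟩

/-- `0, S, +, ·` of a commutative semiring -/
def strC {M : Type} (c : CommSemiring M) : Str M :=
  ⟨0, fun a => a + 1, fun a b => a + b, fun a b => a * b⟩

theorem BR : S_BR := by
  intro M A hA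
  let i0 : LA.Structure M := mst A
  have i1 : M ⊨ PA := mst_models A hA
  obtain ⟨I, hI⟩ := exists_paModel M
  refine ⟨I, ?_⟩
  have h1 : @strOf M I = strC I.toCommSemiring := rfl
  rw [h1, hI]
  have h2 : (fun a : M => ra a (rs rz)) = A.succ := by
    funext a
    rw [ra_one]
    rfl
  show (⟨rz, fun a => ra a (rs rz), fun a b => ra a b, fun a b => rm a b⟩ : Str M) = A
  rw [h2]
  rfl

end Pool.Agent.H97.EP
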